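import Pool.Agent.H717.NL.Stmts2

set_option autoImplicit false

/-! # NL717 DFT: cost of the fast Fourier transform over `ℝ[X]/(X^(2^s)+1)` (helper746) -/

open Polynomial

namespace Pool.Agent.H746.NL

open Pool.Agent.H717.NL

/-- the modulus -/
noncomputable abbrev Pm (s : ℕ) : ℝ[X] := X ^ (2 ^ s) + 1

theorem Pm_eq (s : ℕ) : Pm s = X ^ (2 ^ s) + C (1 : ℝ) := by
  rw [map_one]

theorem two_pow_ne (s : ℕ) : 2 ^ s ≠ 0 := pow_ne_zero _ two_ne_zero

theorem two_pow_pos' (s : ℕ) : 0 < 2 ^ s := Nat.pow_pos (by norm_num)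

theorem Pm_monic (s : ℕ) : (Pm s).Monic := by
  rw [Pm_eq]
  exact monic_X_pow_add_C 1 (two_pow_ne s)

theorem Pm_degree (s : ℕ) : (Pm s).degree = ((2 ^ s : ℕ) : WithBot ℕ) := by
  rw [Pm_eq]
  exact degree_X_pow_add_C (two_pow_pos' s) 1

theorem toPoly_degree {n : ℕ} (v : Fin n → ℝ) : (toPoly v).degree < n := degree_sum_fin_lt v

theorem toPoly_coeff {n : ℕ} (v : Fin n → ℝ) (i : Fin n) : (toPoly v).coeff i = v i := by
  unfold toPoly
  rw [finsetSum_coeff, Finset.sum_eq_single i]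
  · rw [coeff_C_mul, coeff_X_pow, if_pos rfl, mul_one]
  · intro j _ hj
    rw [coeff_C_mul, coeff_X_pow, if_neg (fun h => hj (Fin.ext h.symm)), mul_zero]
  · intro h
    exact absurd (Finset.mem_univ i) h

theorem toPoly_of_coeff {n : ℕ} {q : ℝ[X]} (hq : q.degree < n) :
    toPoly (fun i : Fin n => q.coeff i) = q := by
  ext i
  by_cases h : i < n
  · exact toPoly_coeff (fun i : Fin n => q.coeff i) ⟨i, h⟩
  · have hn : (n : WithBot ℕ) ≤ i := by exact_mod_cast (not_lt.1 h)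
    rw [coeff_eq_zero_of_degree_lt ((toPoly_degree _).trans_le hn),
      coeff_eq_zero_of_degree_lt (hq.trans_le hn)]

theorem modc {s : ℕ} {A B : ℝ[X]} (h : Pm s ∣ A - B) : A %ₘ Pm s = B %ₘ Pm s :=
  modByMonic_eq_of_dvd_sub (Pm_monic s) h

theorem Pm_coeff_zero (s : ℕ) : (Pm s).coeff 0 = 1 := by
  rw [coeff_add, coeff_X_pow, coeff_one, if_neg (two_pow_ne s).symm, if_pos rfl, zero_add]

theorem Pm_coeff_top (s : ℕ) : (Pm s).coeff (2 ^ s) = 1 := by
  rw [coeff_add, coeff_X_pow, coeff_one, if_pos rfl, if_neg (two_pow_ne s), add_zero]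

theorem Pm_coeff_other {s i : ℕ} (h0 : i ≠ 0) (h1 : i ≠ 2 ^ s) : (Pm s).coeff i = 0 := by
  rw [coeff_add, coeff_X_pow, coeff_one, if_neg h1, if_neg h0, add_zero]

/-- multiplication by `X` modulo `X^(2^s)+1` -/
theorem X_mul_mod {s : ℕ} {q : ℝ[X]} (hq : q.degree < ((2 ^ s : ℕ) : WithBot ℕ)) :
    (X * q) %ₘ Pm s = X * q - C (q.coeff (2 ^ s - 1)) * Pm s := by
  refine (div_modByMonic_unique (C (q.coeff (2 ^ s - 1))) _ (Pm_monic s) ⟨?_, ?_⟩).2
  · ring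
  · rw [Pm_degree, degree_lt_iff_coeff_zero]
    intro i hi
    have hpos := two_pow_pos' s
    obtain ⟨i, rfl⟩ : ∃ k, i = k + 1 := ⟨i - 1, by omega⟩
    rw [coeff_sub, coeff_C_mul, coeff_X_mul]
    by_cases h : i + 1 = 2 ^ s
    · rw [h, Pm_coeff_top, mul_one]
      have : i = 2 ^ s - 1 := by omega
      rw [this, sub_self]
    · rw [Pm_coeff_other (by omega) h, mul_zero, sub_zero]
      refine coeff_eq_zero_of_degree_lt (hq.trans_le ?_)
      exact_mod_cast (by omega : 2 ^ s ≤ i)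

/-- multiplication by a power of `X` is a signed permutation of the coefficients -/
theorem sgn_perm (s e : ℕ) : ∀ i : Fin (2 ^ s), ∃ (k : Fin (2 ^ s)) (b : Bool),
    ∀ v : Fin (2 ^ s) → ℝ, ((X ^ e * toPoly v) %ₘ Pm s).coeff i = if b then v k else - v k := by
  induction e with
  | zero =>
    intro i
    refine ⟨i, true, fun v => ?_⟩
    rw [pow_zero, one_mul, (modByMonic_eq_self_iff (Pm_monic s)).2 (by
      rw [Pm_degree]; exact toPoly_degree v), toPoly_coeff, if_pos rfl]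
  | succ e ih =>
    intro i
    have hpos := two_pow_pos' s
    have key : ∀ v : Fin (2 ^ s) → ℝ, (X ^ (e + 1) * toPoly v) %ₘ Pm s =
        X * ((X ^ e * toPoly v) %ₘ Pm s) -
          C (((X ^ e * toPoly v) %ₘ Pm s).coeff (2 ^ s - 1)) * Pm s := by
      intro v
      rw [← X_mul_mod (by rw [← Pm_degree]; exact degree_modByMonic_lt _ (Pm_monic s))]
      refine modc ?_
      have h1 := dvd_modByMonic_sub (X ^ e * toPoly v) (Pm s)
      have h2 : X ^ (e + 1) * toPoly v - X * ((X ^ e * toPoly v) %ₘ Pm s) =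
          -X * ((X ^ e * toPoly v) %ₘ Pm s - X ^ e * toPoly v) := by ring
      rw [h2]
      exact Dvd.dvd.mul_left h1 _
    by_cases h0 : (i : ℕ) = 0
    · obtain ⟨k, b, hk⟩ := ih ⟨2 ^ s - 1, by omega⟩
      refine ⟨k, !b, fun v => ?_⟩
      rw [key v, h0, coeff_sub, coeff_C_mul, Pm_coeff_zero, mul_one, coeff_X_mul_zero, zero_sub]
      have := hk v
      simp only at this
      rw [this]
      cases b <;> simp
    · obtain ⟨i', hi'⟩ : ∃ k, (i : ℕ) = k + 1 := ⟨i - 1, by omega⟩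
      have hilt := i.isLt
      obtain ⟨k, b, hk⟩ := ih ⟨i', by omega⟩
      refine ⟨k, b, fun v => ?_⟩
      rw [key v, coeff_sub, coeff_C_mul, Pm_coeff_other h0 (by omega), mul_zero, sub_zero, hi',
        coeff_X_mul]
      exact hk v

/-- even indices -/
def ev {m : ℕ} (b : Fin (2 ^ m)) : Fin (2 ^ (m + 1)) :=
  ⟨2 * b, by have := b.isLt; rw [pow_succ]; omega⟩

/-- odd indices -/
def od {m : ℕ} (b : Fin (2 ^ m)) : Fin (2 ^ (m + 1)) :=
  ⟨2 * b + 1, by have := b.isLt; rw [pow_succ]; omega⟩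

theorem sum_split {M : Type} [AddCommMonoid M] {m : ℕ} (f : Fin (2 ^ (m + 1)) → M) :
    ∑ a, f a = ∑ b : Fin (2 ^ m), (f (ev b) + f (od b)) := by
  have h : 2 ^ m * 2 = 2 ^ (m + 1) := (pow_succ 2 m).symm
  rw [← Equiv.sum_comp (finProdFinEquiv.trans (finCongr h)), Fintype.sum_prod_type]
  refine Finset.sum_congr rfl fun b _ => ?_
  rw [Fin.sum_univ_two]
  congr 2
  · refine Fin.ext ?_
    simp [finProdFinEquiv, ev]
  · refine Fin.ext ?_
    simp [finProdFinEquiv, od, add_comm]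

/-- the index modulo `2^m` -/
def jm {m : ℕ} (j : Fin (2 ^ (m + 1))) : Fin (2 ^ m) := ⟨j % 2 ^ m, Nat.mod_lt _ (two_pow_pos' m)⟩

theorem pow_red {R : Type} [CommRing R] {x : R} {s m : ℕ} (hm : m ≤ s) (hx : x ^ 2 ^ (s + 1) = 1)
    (u b j : ℕ) : x ^ (u * 2 ^ (s + 1 - (m + 1)) * (2 * b) * j) =
      x ^ (u * 2 ^ (s + 1 - m) * b * (j % 2 ^ m)) := by
  have e1 : u * 2 ^ (s + 1 - (m + 1)) * (2 * b) * j = u * 2 ^ (s + 1 - m) * b * j := by
    have : s + 1 - m = (s + 1 - (m + 1)) + 1 := by omega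
    rw [this, pow_succ]
    ring
  have e2 : u * 2 ^ (s + 1 - m) * b * j = u * 2 ^ (s + 1 - m) * b * (j % 2 ^ m) +
      2 ^ (s + 1) * (u * b * (j / 2 ^ m)) := by
    have h1 : 2 ^ (s + 1) = 2 ^ (s + 1 - m) * 2 ^ m := by
      rw [← pow_add]
      congr 1
      omega
    rw [h1]
    conv_lhs => rw [← Nat.mod_add_div j (2 ^ m)]
    ring
  rw [e1, e2, pow_add, pow_mul x (2 ^ (s + 1)), hx, one_pow, mul_one]

theorem dft_step {s m : ℕ} (u : ℕ) (hm : m ≤ s) (F : Fin (2 ^ (m + 1)) → Fin (2 ^ s) → ℝ)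
    (j : Fin (2 ^ (m + 1))) (i : Fin (2 ^ s)) :
    ((∑ a : Fin (2 ^ (m + 1)), toPoly (F a) * X ^ (u * 2 ^ (s + 1 - (m + 1)) * (a : ℕ) * (j : ℕ)))
      %ₘ Pm s).coeff i =
    ((∑ b : Fin (2 ^ m), toPoly (F (ev b)) * X ^ (u * 2 ^ (s + 1 - m) * (b : ℕ) * (jm j : ℕ)))
      %ₘ Pm s).coeff i +
    ((X ^ (u * 2 ^ (s + 1 - (m + 1)) * (j : ℕ)) * toPoly (fun k : Fin (2 ^ s) =>
      ((∑ b : Fin (2 ^ m), toPoly (F (od b)) * X ^ (u * 2 ^ (s + 1 - m) * (b : ℕ) * (jm j : ℕ)))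
      %ₘ Pm s).coeff k)) %ₘ Pm s).coeff i := by
  rw [toPoly_of_coeff (by rw [← Pm_degree]; exact degree_modByMonic_lt _ (Pm_monic s)),
    ← coeff_add, ← add_modByMonic]
  congr 1
  refine modc ?_
  rw [← Ideal.mem_span_singleton, ← Ideal.Quotient.mk_eq_mk_iff_sub_mem]
  set φ : ℝ[X] →+* ℝ[X] ⧸ Ideal.span {Pm s} := Ideal.Quotient.mk (Ideal.span {Pm s}) with hφ
  have hP : φ (Pm s) = 0 := Ideal.Quotient.eq_zero_iff_mem.2 (Ideal.mem_span_singleton_self _)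
  have hx1 : φ X ^ 2 ^ s = -1 := by
    have : φ X ^ 2 ^ s + 1 = 0 := by
      rw [← hP, map_add, map_pow, map_one]
    exact eq_neg_of_add_eq_zero_left this
  have hx : φ X ^ 2 ^ (s + 1) = 1 := by
    rw [pow_succ, pow_mul, hx1]
    norm_num
  have hmod : ∀ A : ℝ[X], φ (A %ₘ Pm s) = φ A := by
    intro A
    rw [hφ, Ideal.Quotient.mk_eq_mk_iff_sub_mem, Ideal.mem_span_singleton]
    exact dvd_modByMonic_sub A (Pm s)
  rw [map_add, map_mul, hmod, map_sum, map_sum, map_sum, map_pow, sum_split,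
    Finset.sum_add_distrib, Finset.mul_sum]
  congr 1
  · refine Finset.sum_congr rfl fun b _ => ?_
    rw [map_mul, map_mul, map_pow, map_pow]
    congr 1
    exact pow_red hm hx u b j
  · refine Finset.sum_congr rfl fun b _ => ?_
    rw [map_mul, map_mul, map_pow, map_pow]
    have e : u * 2 ^ (s + 1 - (m + 1)) * ((od b : Fin (2 ^ (m + 1))) : ℕ) * (j : ℕ) =
        u * 2 ^ (s + 1 - (m + 1)) * (j : ℕ) + u * 2 ^ (s + 1 - (m + 1)) * (2 * b) * j := by
      show u * 2 ^ (s + 1 - (m + 1)) * (2 * (b : ℕ) + 1) * (j : ℕ) = _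
      ring
    rw [e, pow_add, pow_red hm hx u b j]
    show _ = _ * (_ * φ X ^ (u * 2 ^ (s + 1 - m) * (b : ℕ) * ((j : ℕ) % 2 ^ m)))
    ring

theorem t_dftcost : S_dftcost := by
  refine ⟨1, fun s m u => ?_⟩
  induction m with
  | zero =>
    intro _
    refine (Cmp.congr (Cmp.id (α := Fin (2 ^ 0) → Fin (2 ^ s) → ℝ)) fun F => ?_).mono
      (Nat.zero_le _)
    funext j i
    have hj : j = 0 := Subsingleton.elim (α := Fin 1) j 0
    have h1 : (∑ a : Fin (2 ^ 0), toPoly (F a) *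
        X ^ (u * 2 ^ (s + 1 - 0) * (a : ℕ) * (j : ℕ))) = toPoly (F j) := by
      have : (Finset.univ : Finset (Fin (2 ^ 0))) = {j} := by
        rw [hj]
        rfl
      rw [this, Finset.sum_singleton, hj]
      simp
    rw [h1]
    have h2 : toPoly (F j) %ₘ (X ^ 2 ^ s + 1) = toPoly (F j) :=
      (modByMonic_eq_self_iff (Pm_monic s)).2 (by rw [Pm_degree]; exact toPoly_degree _)
    rw [h2, toPoly_coeff]
  | succ m ih =>
    intro hm
    have ih' := ih (by omega)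
    have hms : m ≤ s := by omega
    -- the two halves
    have c0 := (Cmp.reindex (α := Fin (2 ^ s) → ℝ) (fun b : Fin (2 ^ m) => ev b)).on ih'
    have c1 := (Cmp.reindex (α := Fin (2 ^ s) → ℝ) (fun b : Fin (2 ^ m) => od b)).on ih'
    have c2 := c0.pair c1
    choose k b hkb using fun (e : ℕ) (i : Fin (2 ^ s)) => sgn_perm s e i
    have c3 : Cmp (fun (p : (Fin (2 ^ m) → Fin (2 ^ s) → ℝ) × (Fin (2 ^ m) → Fin (2 ^ s) → ℝ)) =>
        fun (j : Fin (2 ^ (m + 1))) (i : Fin (2 ^ s)) =>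
        p.1 (jm j) i + (if b (u * 2 ^ (s + 1 - (m + 1)) * (j : ℕ)) i then
          p.2 (jm j) (k (u * 2 ^ (s + 1 - (m + 1)) * (j : ℕ)) i) else
          - p.2 (jm j) (k (u * 2 ^ (s + 1 - (m + 1)) * (j : ℕ)) i))) (2 ^ (m + 1) * (2 ^ s * 1)) := by
      refine Cmp.pi fun j => Cmp.pi fun i => ?_
      have d1 : Cmp (fun p : (Fin (2 ^ m) → Fin (2 ^ s) → ℝ) × (Fin (2 ^ m) → Fin (2 ^ s) → ℝ) =>
          p.1 (jm j) i) 0 :=
        Cmp.fst.on ((Cmp.proj (α := Fin (2 ^ s) → ℝ) (jm j)).on (Cmp.proj (α := ℝ) i))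
      have d2 : ∀ k' : Fin (2 ^ s), Cmp (fun p : (Fin (2 ^ m) → Fin (2 ^ s) → ℝ) ×
          (Fin (2 ^ m) → Fin (2 ^ s) → ℝ) => p.2 (jm j) k') 0 := fun k' =>
        Cmp.snd.on ((Cmp.proj (α := Fin (2 ^ s) → ℝ) (jm j)).on (Cmp.proj (α := ℝ) k'))
      by_cases hb : b (u * 2 ^ (s + 1 - (m + 1)) * (j : ℕ)) i = true
      · refine ((d1.add' (d2 (k (u * 2 ^ (s + 1 - (m + 1)) * (j : ℕ)) i))).mono
          (by omega)).congr fun p => ?_
        rw [if_pos hb]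
      · refine ((d1.sub' (d2 (k (u * 2 ^ (s + 1 - (m + 1)) * (j : ℕ)) i))).mono
          (by omega)).congr fun p => ?_
        rw [if_neg hb, sub_eq_add_neg]
    refine ((c2.comp c3).mono ?_).congr fun F => ?_
    · have e1 : 1 * 2 ^ (m + 1) * 2 ^ s * (m + 1 + 1) =
          (1 * 2 ^ m * 2 ^ s * (m + 1) + 1 * 2 ^ m * 2 ^ s * (m + 1)) + 2 ^ (m + 1) * (2 ^ s * 1) := by
        rw [pow_succ]
        ring
      rw [e1]
    · funext j i
      have h1 := dft_step u hms F j i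
      have h2 := hkb (u * 2 ^ (s + 1 - (m + 1)) * (j : ℕ)) i (fun k : Fin (2 ^ s) =>
        ((∑ b : Fin (2 ^ m), toPoly (F (od b)) * X ^ (u * 2 ^ (s + 1 - m) * (b : ℕ) * (jm j : ℕ)))
        %ₘ Pm s).coeff k)
      rw [h2] at h1
      exact h1.symm

end Pool.Agent.H746.NL
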